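import Pool.Agent.Helper44.GH.Stmts

/-!
MP_d210aa_gt, module GSM: a critical point with negative second derivative is a strict local maximum.
-/

open Finset MeasureTheory Filter Topology Matrix
open scoped ENNReal ContDiff

namespace Pool.Agent.Helper44.GH

open Pool.Agent.Helper44.GF Pool.Agent.Helper44.GN

theorem gsm_inj {n m : ℕ} {V : Matrix (Fin n) (Fin m) ℝ} {B : Matrix (Fin m) (Fin n) ℝ}
    (hBV : B * V = 1) (u : KB B) :
    Function.Injective (V + Matrix.of (u : Fin n → Fin m → ℝ)).mulVec := by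
  have h0 : B * Matrix.of (u : Fin n → Fin m → ℝ) = 0 := u.2
  have h1 : B * (V + Matrix.of (u : Fin n → Fin m → ℝ)) = 1 := by
    rw [Matrix.mul_add, h0, add_zero, hBV]
  intro a b hab
  have h2 : B.mulVec ((V + Matrix.of (u : Fin n → Fin m → ℝ)).mulVec a) =
      B.mulVec ((V + Matrix.of (u : Fin n → Fin m → ℝ)).mulVec b) := by
    rw [hab]
  rw [Matrix.mulVec_mulVec, Matrix.mulVec_mulVec, h1, Matrix.one_mulVec, Matrix.one_mulVec] at h2
  exact h2

theorem gsm_real {φ ψ χ : ℝ → ℝ} {t₀ : ℝ} (ht : 0 < t₀)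
    (h1 : ∀ t, HasDerivAt φ (ψ t) t) (h2 : ∀ t, HasDerivAt ψ (χ t) t) (h0 : ψ 0 = 0)
    (h3 : ∀ t, 0 ≤ t → t ≤ t₀ → χ t < 0) : φ t₀ < φ 0 := by
  have ha : StrictAntiOn ψ (Set.Icc 0 t₀) := by
    apply strictAntiOn_of_deriv_neg (convex_Icc 0 t₀)
    · exact fun t _ => (h2 t).continuousAt.continuousWithinAt
    · intro t htt
      rw [interior_Icc] at htt
      rw [(h2 t).deriv]
      exact h3 t htt.1.le htt.2.le
  have hb : StrictAntiOn φ (Set.Icc 0 t₀) := by
    apply strictAntiOn_of_deriv_neg (convex_Icc 0 t₀)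
    · exact fun t _ => (h1 t).continuousAt.continuousWithinAt
    · intro t htt
      rw [interior_Icc] at htt
      rw [(h1 t).deriv, ← h0]
      exact ha ⟨le_rfl, ht.le⟩ ⟨htt.1.le, htt.2.le⟩ htt.1
  exact hb ⟨le_rfl, ht.le⟩ ⟨ht.le, le_rfl⟩ ht

theorem gsm_tube {E : Type} [NormedAddCommGroup E] [NormedSpace ℝ E] [ProperSpace E]
    (Q : E → E → ℝ) (w : E) (hQ : Continuous (fun p : E × E => Q p.1 p.2))
    (hn : ∀ e, e ≠ 0 → Q w e < 0) :
    ∃ ε : ℝ, 0 < ε ∧ ∀ x, ‖x - w‖ < ε → ∀ e, ‖e‖ = 1 → Q x e < 0 := by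
  have hev : ∀ᶠ x in 𝓝 w, ∀ e ∈ Metric.sphere (0 : E) 1, Q x e < 0 := by
    apply IsCompact.eventually_forall_of_forall_eventually (isCompact_sphere (0 : E) 1)
    intro e he
    have he0 : e ≠ 0 := by
      intro h
      rw [h, mem_sphere_iff_norm, sub_zero, norm_zero] at he
      exact zero_ne_one he
    have h5 : Tendsto (fun p : E × E => Q p.1 p.2) (𝓝 (w, e)) (𝓝 (Q w e)) := hQ.tendsto (w, e)
    exact h5.eventually_lt_const (hn e he0)
  obtain ⟨ε, hε, hball⟩ := Metric.eventually_nhds_iff.1 hev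
  refine ⟨ε, hε, ?_⟩
  intro x hx e he
  have hx' : dist x w < ε := by
    rw [dist_eq_norm]
    exact hx
  apply hball hx' e
  rw [mem_sphere_iff_norm, sub_zero]
  exact he

theorem gsm_abs {E : Type} [NormedAddCommGroup E] [NormedSpace ℝ E] [ProperSpace E]
    (G : E → ℝ) (P Q : E → E → ℝ) (w : E) (hQ : Continuous (fun p : E × E => Q p.1 p.2))
    (hd1 : ∀ (e : E) (t : ℝ), HasDerivAt (fun u : ℝ => G (w + u • e)) (P (w + t • e) e) t)
    (hd2 : ∀ (e : E) (t : ℝ), HasDerivAt (fun u : ℝ => P (w + u • e) e) (Q (w + t • e) e) t)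
    (hc : ∀ e, P w e = 0) (hn : ∀ e, e ≠ 0 → Q w e < 0) : SLM G w := by
  obtain ⟨ε, hε, hball⟩ := gsm_tube Q w hQ hn
  refine ⟨ε, hε, ?_⟩
  intro v hv hvε
  have ht0 : 0 < ‖v - w‖ := norm_pos_iff.2 (sub_ne_zero.2 hv)
  have hen : ‖‖v - w‖⁻¹ • (v - w)‖ = 1 := by
    rw [norm_smul, norm_inv, norm_norm]
    exact inv_mul_cancel₀ ht0.ne'
  have hve : w + ‖v - w‖ • (‖v - w‖⁻¹ • (v - w)) = v := by
    rw [smul_smul, mul_inv_cancel₀ ht0.ne', one_smul, add_sub_cancel]
  have hfin := gsm_real (φ := fun u : ℝ => G (w + u • (‖v - w‖⁻¹ • (v - w))))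
    (ψ := fun u : ℝ => P (w + u • (‖v - w‖⁻¹ • (v - w))) (‖v - w‖⁻¹ • (v - w)))
    (χ := fun u : ℝ => Q (w + u • (‖v - w‖⁻¹ • (v - w))) (‖v - w‖⁻¹ • (v - w))) ht0
    (fun t => hd1 _ t) (fun t => hd2 _ t)
    (by
      simp only [zero_smul, add_zero]
      exact hc _)
    (by
      intro t ht1 ht2
      apply hball _ _ _ hen
      rw [add_sub_cancel_left, norm_smul, hen, mul_one, Real.norm_of_nonneg ht1]
      exact lt_of_le_of_lt ht2 hvε)
  simpa only [hve, zero_smul, add_zero] using hfin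

theorem gsm_line {n m : ℕ} {V : Matrix (Fin n) (Fin m) ℝ} {B : Matrix (Fin m) (Fin n) ℝ}
    (w e : KB B) (t u : ℝ) : V + Matrix.of ((w + u • e : KB B) : Fin n → Fin m → ℝ) =
      V + Matrix.of ((w + t • e : KB B) : Fin n → Fin m → ℝ) +
        (u - t) • Matrix.of (e : Fin n → Fin m → ℝ) := by
  ext i j
  simp only [Matrix.add_apply, Matrix.smul_apply, Matrix.of_apply, Submodule.coe_add,
    Submodule.coe_smul, Pi.add_apply, Pi.smul_apply, smul_eq_mul]
  ring

theorem gsm_shift {F : ℝ → ℝ} {c t : ℝ} (h : HasDerivAt F c 0) :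
    HasDerivAt (fun u : ℝ => F (u - t)) c t := by
  apply HasDerivAt.comp_sub_const
  rw [sub_self]
  exact h

theorem gsm_cont {n m : ℕ} (V : Matrix (Fin n) (Fin m) ℝ) (B : Matrix (Fin m) (Fin n) ℝ) :
    Continuous (fun p : KB B × KB B =>
      ((V + Matrix.of (p.1 : Fin n → Fin m → ℝ), Matrix.of (p.2 : Fin n → Fin m → ℝ)) :
        Matrix (Fin n) (Fin m) ℝ × Matrix (Fin n) (Fin m) ℝ)) := by
  apply Continuous.prodMk
  · apply continuous_matrix
    intro i j
    simp only [Matrix.add_apply, Matrix.of_apply]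
    exact continuous_const.add ((continuous_apply_apply i j).comp
      (continuous_subtype_val.comp continuous_fst))
  · apply continuous_matrix
    intro i j
    simp only [Matrix.of_apply]
    exact (continuous_apply_apply i j).comp (continuous_subtype_val.comp continuous_snd)

theorem st_GSM (hDMS : ST_DMS) (hCTJ : ST_CTJ) : ST_GSM := by
  intro n m Y _ _ s ζ δ r z V B hMD hBV w hcrit hneg
  have hcont := (hCTJ n m Y s ζ δ r z hMD).2.2.2
  have hΦ : Continuous (fun p : KB B × KB B =>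
      M2 (V + Matrix.of (p.1 : Fin n → Fin m → ℝ)) (Matrix.of (p.2 : Fin n → Fin m → ℝ)) δ r z) := by
    have h := hcont.comp_continuous (gsm_cont V B) (fun p => gsm_inj hBV p.1)
    exact h
  apply gsm_abs (GB B V δ r z)
    (fun x e => M1 (V + Matrix.of (x : Fin n → Fin m → ℝ)) (Matrix.of (e : Fin n → Fin m → ℝ)) δ r z)
    (fun x e => M2 (V + Matrix.of (x : Fin n → Fin m → ℝ)) (Matrix.of (e : Fin n → Fin m → ℝ)) δ r z)
    w hΦ
  · intro e t
    have h1 := gsm_shift (t := t) (hDMS n m Y s ζ δ r z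
      (V + Matrix.of ((w + t • e : KB B) : Fin n → Fin m → ℝ))
      (Matrix.of (e : Fin n → Fin m → ℝ)) hMD (gsm_inj hBV _)).1
    have h4 : (fun u : ℝ => GB B V δ r z (w + u • e)) = fun u : ℝ =>
        MS (V + Matrix.of ((w + t • e : KB B) : Fin n → Fin m → ℝ) +
          (u - t) • Matrix.of (e : Fin n → Fin m → ℝ)) δ r z := by
      funext u
      rw [GB, gsm_line w e t u]
    rw [h4]
    exact h1
  · intro e t
    have h1 := gsm_shift (t := t) (hDMS n m Y s ζ δ r z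
      (V + Matrix.of ((w + t • e : KB B) : Fin n → Fin m → ℝ))
      (Matrix.of (e : Fin n → Fin m → ℝ)) hMD (gsm_inj hBV _)).2
    have h4 : (fun u : ℝ => M1 (V + Matrix.of ((w + u • e : KB B) : Fin n → Fin m → ℝ))
        (Matrix.of (e : Fin n → Fin m → ℝ)) δ r z) = fun u : ℝ =>
        M1 (V + Matrix.of ((w + t • e : KB B) : Fin n → Fin m → ℝ) +
          (u - t) • Matrix.of (e : Fin n → Fin m → ℝ)) (Matrix.of (e : Fin n → Fin m → ℝ))
          δ r z := by
      funext u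
      rw [gsm_line w e t u]
    rw [h4]
    exact h1
  · exact hcrit
  · exact hneg

end Pool.Agent.Helper44.GH
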